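import Pool.Agent.PCL.Stmts

namespace Pool.Agent.PCL.H98

theorem half_le_log {Q : ℕ} (hQ : 2 ≤ Q) : (1 : ℝ) / 2 ≤ Real.log Q := by
  have h2 : Real.log 2 ≤ Real.log Q := Real.log_le_log (by norm_num) (by exact_mod_cast hQ)
  have := Real.log_two_gt_d9
  linarith

theorem quot_le {a : ℝ} {k : ℕ} (ha : 0 ≤ a) (hk : 6 * a ≤ k) (hk1 : 1 ≤ k) :
    a ^ k / k.factorial ≤ (1 / 2 : ℝ) ^ k := by
  have hkpos : (0 : ℝ) < k := by exact_mod_cast hk1
  have h1 : (k : ℝ) ^ k / k.factorial ≤ Real.exp k := Real.pow_div_factorial_le_exp _ hkpos.le k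
  have h3 : Real.exp (k : ℝ) ≤ (3 : ℝ) ^ k := by
    have : Real.exp (k : ℝ) = (Real.exp 1) ^ k := by
      rw [← Real.exp_nat_mul, mul_one]
    rw [this]
    apply pow_le_pow_left₀ (Real.exp_pos 1).le
    have := Real.exp_one_lt_d9
    linarith
  have h4 : (k : ℝ) ^ k / k.factorial ≤ 3 ^ k := h1.trans h3
  have hf : (0 : ℝ) < k.factorial := by exact_mod_cast Nat.factorial_pos k
  have h5 : (a * 6) ^ k ≤ (k : ℝ) ^ k := by
    apply pow_le_pow_left₀ (by positivity)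
    linarith
  have h6 : (a * 6) ^ k / k.factorial ≤ 3 ^ k := by
    refine le_trans ?_ h4
    gcongr
  rw [mul_pow] at h6
  have h7 : (6 : ℝ) ^ k = 3 ^ k * 2 ^ k := by rw [← mul_pow]; norm_num
  have h3pos : (0 : ℝ) < 3 ^ k := by positivity
  have h2pos : (0 : ℝ) < 2 ^ k := by positivity
  rw [h7, div_le_iff₀ hf] at h6
  rw [div_le_iff₀ hf, one_div, inv_pow, inv_mul_eq_div, le_div_iff₀ h2pos]
  have h8 : 3 ^ k * (a ^ k * 2 ^ k) ≤ 3 ^ k * (k.factorial : ℝ) := by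
    calc 3 ^ k * (a ^ k * 2 ^ k) = a ^ k * (3 ^ k * 2 ^ k) := by ring
      _ ≤ _ := h6
  exact le_of_mul_le_mul_left h8 h3pos

theorem half_pow_le {B : ℝ} {k : ℕ} (hB : 0 < B) (hk : 2 * Real.log B ≤ k) :
    (1 / 2 : ℝ) ^ k ≤ 1 / B := by
  rw [one_div, inv_pow, one_div]
  apply inv_anti₀ hB
  have h1 : B = Real.exp (Real.log B) := (Real.exp_log hB).symm
  have h2 : (2 : ℝ) ^ k = Real.exp (k * Real.log 2) := by
    rw [Real.exp_nat_mul, Real.exp_log (by norm_num)]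
  rw [h1, h2]
  apply Real.exp_le_exp.mpr
  have := Real.log_two_gt_d9
  have hk0 : (0 : ℝ) ≤ k := Nat.cast_nonneg k
  nlinarith

theorem le_two_mul {x L : ℝ} (hx : 0 ≤ x) (hL : 1 / 2 ≤ L) : x ≤ 2 * x * L := by nlinarith

theorem le_two_mul_sq {L : ℝ} (hL : 1 / 2 ≤ L) : L ≤ 2 * L ^ 2 := by nlinarith

theorem le_four_mul_sq {x L : ℝ} (hx : 0 ≤ x) (hL : 1 / 2 ≤ L) : x ≤ 4 * x * L ^ 2 := by
  have h1 : 1 ≤ 4 * L ^ 2 := by nlinarith
  nlinarith

theorem ptp : PtpStmt := by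
  intro D C₁ hD
  have hDr : (1 : ℝ) ≤ D := by exact_mod_cast hD
  set c : ℝ := max C₁ 1 with hc
  have hc1 : 1 ≤ c := le_max_right _ _
  have hcC : C₁ ≤ c := le_max_left _ _
  have h3D : (1 : ℝ) ≤ 3 ^ D := one_le_pow₀ (by norm_num)
  set A₁ : ℝ := 16 * D * c * 3 ^ D + 3 with hA₁
  have hA₁1 : 1 ≤ A₁ := by
    have : 0 ≤ 16 * (D : ℝ) * c * 3 ^ D := by positivity
    linarith
  set A₂ : ℝ := 16 * D * A₁ * 3 ^ D + 3 with hA₂
  have hA₂1 : 1 ≤ A₂ := by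
    have : 0 ≤ 16 * (D : ℝ) * A₁ * 3 ^ D := by positivity
    linarith
  have hl1 : 0 ≤ Real.log A₁ := Real.log_nonneg hA₁1
  have hl2 : 0 ≤ Real.log A₂ := Real.log_nonneg hA₂1
  have hlD : 0 ≤ Real.log D := Real.log_nonneg hDr
  set b : ℝ := Real.log (16 * 3 ^ D) with hb
  have hb0 : 0 ≤ b := Real.log_nonneg (by linarith)
  set a₁ : ℝ := 2 * Real.log A₁ + 2 with ha₁
  set a₂ : ℝ := 2 * Real.log A₂ + 3 with ha₂
  set a₃ : ℝ := 12 * D + 6 + 6 * D * a₁ + 4 * b + 2 with ha₃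
  have ha₁0 : 0 ≤ a₁ := by positivity
  have ha₂0 : 0 ≤ a₂ := by positivity
  have ha₃0 : 0 ≤ a₃ := by positivity
  refine ⟨1 + (4 * b + 2 + a₃ * (2 * Real.log D + a₁)) + D * D * a₃ * a₂, ?_, ?_⟩
  · have : 0 ≤ 4 * b + 2 + a₃ * (2 * Real.log D + a₁) := by positivity
    have : 0 ≤ D * D * a₃ * a₂ := by positivity
    linarith
  intro Q hQ
  have hL := half_le_log hQ
  set L : ℝ := Real.log Q with hLdef
  have hL0 : 0 ≤ L := by linarith
  have hQr : (2 : ℝ) ≤ Q := by exact_mod_cast hQ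
  have hQpos : (0 : ℝ) < Q := by linarith
  have hQ1 : (1 : ℝ) ≤ Q := by linarith
  obtain ⟨y, hy⟩ : ∃ y : ℕ, y = ⌈16 * (D : ℝ) * c * 3 ^ D * Q ^ 2⌉₊ + 2 := ⟨_, rfl⟩
  obtain ⟨Z, hZ⟩ : ∃ Z : ℕ, Z = ⌈16 * (D : ℝ) * y * 3 ^ D * Q⌉₊ + 2 := ⟨_, rfl⟩
  obtain ⟨k, hk⟩ : ∃ k : ℕ, k = ⌈6 * (D : ℝ) * (1 + Real.log y)⌉₊ +
    ⌈2 * Real.log (16 * (3 ^ D * Q))⌉₊ + 1 := ⟨_, rfl⟩
  have hy2 : 2 ≤ y := by omega
  have hZ2 : 2 ≤ Z := by omega
  have hk1 : 1 ≤ k := by omega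
  have hyr : (2 : ℝ) ≤ y := by exact_mod_cast hy2
  have hZr : (2 : ℝ) ≤ Z := by exact_mod_cast hZ2
  have hypos : (0 : ℝ) < y := by linarith
  have hZpos : (0 : ℝ) < Z := by linarith
  have hly : 0 ≤ Real.log y := Real.log_nonneg (by linarith)
  -- lower bounds
  have hylo : 16 * (D : ℝ) * c * 3 ^ D * Q ^ 2 ≤ y := by
    have h1 := Nat.le_ceil (16 * (D : ℝ) * c * 3 ^ D * Q ^ 2)
    rw [hy]; push_cast; linarith
  have hZlo : 16 * (D : ℝ) * y * 3 ^ D * Q ≤ Z := by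
    have h1 := Nat.le_ceil (16 * (D : ℝ) * y * 3 ^ D * Q)
    rw [hZ]; push_cast; linarith
  have hklo1 : 6 * (D : ℝ) * (1 + Real.log y) ≤ k := by
    have h1 := Nat.le_ceil (6 * (D : ℝ) * (1 + Real.log y))
    have h2 : (0 : ℝ) ≤ (⌈2 * Real.log (16 * (3 ^ D * Q))⌉₊ : ℝ) := Nat.cast_nonneg _
    rw [hk]; push_cast; linarith
  have hklo2 : 2 * Real.log (16 * (3 ^ D * Q)) ≤ k := by
    have h1 := Nat.le_ceil (2 * Real.log (16 * (3 ^ D * (Q : ℝ))))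
    have h2 : (0 : ℝ) ≤ (⌈6 * (D : ℝ) * (1 + Real.log y)⌉₊ : ℝ) := Nat.cast_nonneg _
    rw [hk]; push_cast; linarith
  -- upper bounds
  have hyup : (y : ℝ) ≤ A₁ * Q ^ 2 := by
    have h1 := Nat.ceil_lt_add_one (a := 16 * (D : ℝ) * c * 3 ^ D * Q ^ 2) (by positivity)
    have h2 : (1 : ℝ) ≤ Q ^ 2 := one_le_pow₀ hQ1
    rw [hy, hA₁]; push_cast
    rw [add_mul]
    linarith
  have hZup : (Z : ℝ) ≤ A₂ * Q ^ 3 := by
    have h1 := Nat.ceil_lt_add_one (a := 16 * (D : ℝ) * y * 3 ^ D * Q) (by positivity)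
    have h2 : (1 : ℝ) ≤ Q ^ 3 := one_le_pow₀ hQ1
    have h3 : 16 * (D : ℝ) * y * 3 ^ D * Q ≤ 16 * (D : ℝ) * (A₁ * Q ^ 2) * 3 ^ D * Q := by
      gcongr
    rw [hZ, hA₂]; push_cast
    have h4 : 16 * (D : ℝ) * (A₁ * Q ^ 2) * 3 ^ D * Q = 16 * (D : ℝ) * A₁ * 3 ^ D * Q ^ 3 := by
      ring
    rw [h4] at h3
    rw [add_mul]
    linarith
  have hlyup : Real.log y ≤ a₁ * L := by
    have h1 : Real.log y ≤ Real.log (A₁ * Q ^ 2) := Real.log_le_log hypos hyup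
    rw [Real.log_mul (by positivity) (by positivity), Real.log_pow] at h1
    push_cast at h1
    rw [ha₁, add_mul]
    have h2 := le_two_mul hl1 hL
    linarith
  have hlZup : Real.log Z ≤ a₂ * L := by
    have h1 : Real.log Z ≤ Real.log (A₂ * Q ^ 3) := Real.log_le_log hZpos hZup
    rw [Real.log_mul (by positivity) (by positivity), Real.log_pow] at h1
    push_cast at h1
    rw [ha₂, add_mul]
    have h2 := le_two_mul hl2 hL
    linarith
  have hlogB : Real.log (16 * (3 ^ D * (Q : ℝ))) = b + L := by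
    rw [hb, hLdef, ← Real.log_mul (by positivity) (by positivity)]
    congr 1; ring
  have hkup : (k : ℝ) ≤ a₃ * L := by
    have h1 := Nat.ceil_lt_add_one (a := 6 * (D : ℝ) * (1 + Real.log y)) (by positivity)
    have h2 := Nat.ceil_lt_add_one (a := 2 * Real.log (16 * (3 ^ D * (Q : ℝ))))
      (by rw [hlogB]; positivity)
    have h3 : (k : ℝ) ≤ 6 * (D : ℝ) * (1 + Real.log y) + 2 * (b + L) + 3 := by
      rw [hk]; push_cast; rw [hlogB] at h2 ⊢; linarith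
    have h4 : 6 * (D : ℝ) * Real.log y ≤ 6 * D * (a₁ * L) := by gcongr
    have h5 : 6 * (D : ℝ) ≤ 2 * (6 * D) * L := le_two_mul (by positivity) hL
    have h6 : 2 * b ≤ 2 * (2 * b) * L := le_two_mul (by positivity) hL
    have h7 : (3 : ℝ) ≤ 2 * 3 * L := le_two_mul (by norm_num) hL
    have h8 : a₃ * L = 2 * (6 * D) * L + 2 * 3 * L + 6 * D * (a₁ * L) + 2 * (2 * b) * L + 2 * L := by
      rw [ha₃]; ring
    rw [h8]
    linarith
  have hk0 : (0 : ℝ) ≤ k := Nat.cast_nonneg k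
  have hLL : L ≤ 2 * L ^ 2 := le_two_mul_sq hL
  refine ⟨y, Z, k, hy2, hZ2, hk1, ?_, ?_, ?_⟩
  · intro m hm1 hmD δ₁ Λ' hδ hΛ
    have hmr : (1 : ℝ) ≤ m := by exact_mod_cast hm1
    have hmDr : (m : ℝ) ≤ D := by exact_mod_cast hmD
    have hδpos : 0 < δ₁ := lt_of_lt_of_le (by positivity) hδ
    refine ⟨?_, ?_, ?_⟩
    · have h1 : 16 * (m : ℝ) * Λ' ≤ 16 * m * (c * Q) := by
        have : Λ' ≤ c * Q := hΛ.trans (by gcongr)
        gcongr
      have h2 : 16 * (m : ℝ) * (c * Q) ≤ 16 * D * (c * Q) := by gcongr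
      have h3 : 1 / (3 ^ D * (Q : ℝ)) * y ≤ δ₁ * y := by gcongr
      have h4 : 16 * (D : ℝ) * (c * Q) ≤ 1 / (3 ^ D * (Q : ℝ)) * y := by
        rw [one_div_mul_eq_div, le_div_iff₀ (by positivity)]
        calc 16 * (D : ℝ) * (c * Q) * (3 ^ D * Q) = 16 * (D : ℝ) * c * 3 ^ D * Q ^ 2 := by ring
          _ ≤ y := hylo
      linarith
    · have h2 : 16 * (m : ℝ) * y ≤ 16 * D * y := by gcongr
      have h3 : 1 / (3 ^ D * (Q : ℝ)) * Z ≤ δ₁ * Z := by gcongr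
      have h4 : 16 * (D : ℝ) * y ≤ 1 / (3 ^ D * (Q : ℝ)) * Z := by
        rw [one_div_mul_eq_div, le_div_iff₀ (by positivity)]
        calc 16 * (D : ℝ) * y * (3 ^ D * Q) = 16 * (D : ℝ) * y * 3 ^ D * Q := by ring
          _ ≤ Z := hZlo
      linarith
    · have ha : 0 ≤ (m : ℝ) * (1 + Real.log y) := by positivity
      have h6 : 6 * ((m : ℝ) * (1 + Real.log y)) ≤ k := by
        refine le_trans ?_ hklo1
        calc 6 * ((m : ℝ) * (1 + Real.log y)) = 6 * (m : ℝ) * (1 + Real.log y) := by ring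
          _ ≤ 6 * (D : ℝ) * (1 + Real.log y) := by gcongr
      have h7 := quot_le ha h6 hk1
      have h8 := half_pow_le (B := 16 * (3 ^ D * (Q : ℝ))) (k := k) (by positivity) hklo2
      have h9 : 1 / (16 * (3 ^ D * (Q : ℝ))) = 1 / (3 ^ D * (Q : ℝ)) / 16 := by
        field_simp
      rw [h9] at h8
      linarith
  · have h1 : 16 * ((D : ℝ) * y) ^ k * (3 ^ D * Q) =
        Real.exp (b + L + k * (Real.log D + Real.log y)) := by
      rw [Real.exp_add, ← hlogB, Real.exp_log (by positivity),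
        ← Real.log_mul (by positivity) (by positivity), Real.exp_nat_mul,
        Real.exp_log (by positivity)]
      ring
    rw [h1]
    apply Real.exp_le_exp.mpr
    have h2 : Real.log D + Real.log y ≤ (2 * Real.log D + a₁) * L := by
      have := le_two_mul hlD hL
      rw [add_mul]
      linarith
    have h3 : (k : ℝ) * (Real.log D + Real.log y) ≤
        (a₃ * L) * ((2 * Real.log D + a₁) * L) := by
      apply mul_le_mul hkup h2 (by positivity) (by positivity)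
    have h4 : b ≤ 4 * b * L ^ 2 := le_four_mul_sq hb0 hL
    have h5 : 0 ≤ D * D * a₃ * a₂ * L ^ 2 := by positivity
    have h6 : 0 ≤ L ^ 2 := by positivity
    have h7 : (1 + (4 * b + 2 + a₃ * (2 * Real.log D + a₁)) + D * D * a₃ * a₂) * L ^ 2 =
        L ^ 2 + 4 * b * L ^ 2 + 2 * L ^ 2 + (a₃ * L) * ((2 * Real.log D + a₁) * L) +
          D * D * a₃ * a₂ * L ^ 2 := by ring
    rw [h7]
    linarith
  · have h1 : ((Z : ℝ) ^ (D * D)) ^ k = Real.exp (((D * D * k : ℕ) : ℝ) * Real.log Z) := by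
      rw [Real.exp_nat_mul, Real.exp_log hZpos, ← pow_mul]
    rw [h1]
    apply Real.exp_le_exp.mpr
    push_cast
    have h3 : (k : ℝ) * Real.log Z ≤ (a₃ * L) * (a₂ * L) := by
      apply mul_le_mul hkup hlZup (Real.log_nonneg (by linarith)) (by positivity)
    have h4 : (D : ℝ) * D * k * Real.log Z ≤ D * D * ((a₃ * L) * (a₂ * L)) := by
      calc (D : ℝ) * D * k * Real.log Z = D * D * (k * Real.log Z) := by ring
        _ ≤ _ := by gcongr
    have h5 : 0 ≤ (4 * b + 2 + a₃ * (2 * Real.log D + a₁)) * L ^ 2 := by positivity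
    have h6 : 0 ≤ L ^ 2 := by positivity
    have h7 : (1 + (4 * b + 2 + a₃ * (2 * Real.log D + a₁)) + D * D * a₃ * a₂) * L ^ 2 =
        L ^ 2 + (4 * b + 2 + a₃ * (2 * Real.log D + a₁)) * L ^ 2 +
          D * D * ((a₃ * L) * (a₂ * L)) := by ring
    rw [h7]
    linarith

end Pool.Agent.PCL.H98
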